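import Pool.Agent.H297R2.BakerThm

set_option autoImplicit false

namespace Run7.h119.RX

/-- the theorem of Gelfond and Schneider -/
theorem gs {c μ : ℂ} (hc : IsAlgebraic ℚ c) (hci : ∀ q : ℚ, c ≠ q) (hμ0 : μ ≠ 0)
    (hμ : IsAlgebraic ℚ (Complex.exp μ)) : ¬ IsAlgebraic ℚ (Complex.exp (c * μ)) := by
  intro h
  have hli : LinearIndependent ℚ ![μ, c * μ] := by
    rw [LinearIndependent.pair_iff]
    intro s t hst
    have h1 : ((s : ℂ) + t * c) * μ = 0 := by
      rw [← hst, Rat.smul_def, Rat.smul_def]; ring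
    have h2 : (s : ℂ) + t * c = 0 := by
      rcases mul_eq_zero.mp h1 with h2 | h2
      · exact h2
      · exact absurd h2 hμ0
    by_cases ht : t = 0
    · subst ht
      refine ⟨?_, rfl⟩
      simpa using h2
    · exfalso
      apply hci (-s / t)
      have ht' : (t : ℂ) ≠ 0 := by exact_mod_cast ht
      push_cast
      field_simp
      linear_combination h2
  have key := Pool.Agent.H297R2.baker (ι := Fin 2) ![μ, c * μ]
    (by
      intro i
      fin_cases i
      · simpa using hμ
      · simpa using h)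
    hli ![-c, 1] (by
      intro i
      fin_cases i
      · simpa using hc.neg
      · simpa using isAlgebraic_one)
    (by
      rw [Fin.sum_univ_two]
      simp only [Matrix.cons_val_zero, Matrix.cons_val_one]
      ring)
  have := key 1
  simp at this

/-- `√2 ^ √2` -/
theorem trans_sqrt_two_pow : Transcendental ℚ (((√2 : ℝ) ^ (√2 : ℝ) : ℝ) : ℂ) := by
  have h2 : IsAlgebraic ℚ ((√2 : ℝ) : ℂ) := by
    refine ⟨Polynomial.X ^ 2 - Polynomial.C 2, ?_, ?_⟩
    · exact Polynomial.X_pow_sub_C_ne_zero (by norm_num) _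
    · have h3 : ((√2 : ℝ) : ℂ) ^ 2 = 2 := by
        rw [← Complex.ofReal_pow, Real.sq_sqrt (by norm_num)]
        norm_num
      simp only [map_sub, map_pow, Polynomial.aeval_X, Polynomial.aeval_C, h3]
      simp
  have hpos : (0 : ℝ) < √2 := by positivity
  have hlog : Real.log √2 ≠ 0 := by
    have h1 : (1 : ℝ) < √2 := by
      rw [Real.lt_sqrt (by norm_num)]
      norm_num
    exact (Real.log_pos h1).ne'
  intro h
  refine gs (c := ((√2 : ℝ) : ℂ)) (μ := ((Real.log √2 : ℝ) : ℂ)) h2 ?_ ?_ ?_ ?_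
  · intro q hq
    have h3 : (√2 : ℝ) = (q : ℝ) := by exact_mod_cast hq
    exact irrational_sqrt_two ⟨q, h3.symm⟩
  · exact_mod_cast hlog
  · rw [← Complex.ofReal_exp, Real.exp_log hpos]
    exact h2
  · rw [← Complex.ofReal_mul, ← Complex.ofReal_exp, mul_comm, ← Real.rpow_def_of_pos hpos]
    exact h

end Run7.h119.RX
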