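import Pool.Agent.W254.HP.Gen
import Pool.Agent.Run7.h788.ExpSp

/-!
# Exponents in finitely generated rings
-/

set_option autoImplicit false

namespace Run7.h119.RX

open Module Finset Pool.Agent.H301R2.SSE Pool.Agent.W254.HP

theorem boxV_mono {n : ℕ} (t : Fin n → ℂ) {M N : ℕ} (h : M ≤ N) : boxV t M ≤ boxV t N := by
  unfold boxV
  rw [Submodule.span_le]
  rintro _ ⟨e, rfl⟩
  exact mon_mem t N (fun i => (e i : ℕ)) (fun i => lt_of_lt_of_le (e i).isLt h)

theorem finite_mul (V W : Submodule QB ℂ) [Module.Finite QB V] [Module.Finite QB W] :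
    Module.Finite QB (V * W : Submodule QB ℂ) :=
  Module.Finite.iff_fg.2 (Submodule.FG.mul (Module.Finite.iff_fg.1 ‹_›) (Module.Finite.iff_fg.1 ‹_›))

theorem finrank_mul_le (V W : Submodule QB ℂ) [Module.Finite QB V] [Module.Finite QB W] :
    finrank QB (V * W : Submodule QB ℂ) ≤ finrank QB V * finrank QB W := by
  rw [← Submodule.mulMap_range]
  refine (LinearMap.finrank_range_le _).trans ?_
  rw [finrank_tensorProduct]

/-- the basic inequality -/
theorem core (V F : Submodule QB ℂ) [Module.Finite QB V] [Module.Finite QB F] {n : ℕ}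
    (t : Fin n → ℂ) (D h : ℕ) (hh : h ≤ D) (W : Submodule QB ℂ) (hWV : W ≤ V * boxV t D)
    (hWL : W ≤ Lt ⊔ F) :
    finrank QB (boxV t h) * finrank QB W ≤ finrank QB V * (2 ^ n * finrank QB (boxV t D)) +
      finrank QB (boxV t h) * (finrank QB (boxV t h) - 1 + finrank QB F) := by
  have hfin := finite_mul V (boxV t D)
  have hfin2 := finite_mul V (boxV t (2 * D))
  have : Module.Finite QB W := Submodule.finiteDimensional_of_le hWV
  have h1 := Run7.h788.ExpSp.product_mod (boxV t h) W (V * boxV t (2 * D)) F hWL (by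
    intro x hx w hw
    have h2 := hWV hw
    clear hw
    induction h2 using Submodule.mul_induction_on' with
    | mem_mul_mem v hv b hb =>
      have : x * (v * b) = v * (x * b) := by ring
      rw [this]
      exact Submodule.mul_mem_mul hv (box_mul t h D (2 * D) (by omega) x hx b hb)
    | add a _ b _ ha hb =>
      rw [mul_add]
      exact Submodule.add_mem _ ha hb)
  refine h1.trans (Nat.add_le_add_right ?_ _)
  exact (finrank_mul_le _ _).trans (Nat.mul_le_mul_left _ (boxV_double t D))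

theorem optimize (n k N w D : ℕ) (H : ℕ → ℕ) (hD : 1 ≤ D) (h1 : H 1 = 1)
    (hpos : ∀ h, 1 ≤ h → 1 ≤ H h) (hk : 1 ≤ k) (hgrow : ∀ h, 1 ≤ h → H (h + 1) ≤ 2 ^ n * H h)
    (hw : ∀ h, 1 ≤ h → h ≤ D → H h * w ≤ k * (2 ^ n * H D) + H h * (H h - 1 + N)) :
    (w : ℝ) ≤ (4 ^ n + 1) * √((k : ℝ) * H D) + 2 ^ n * k + N ∧
      (k = 1 → w ≤ H D → (w : ℝ) ≤ (4 ^ n + 1) * √(H D : ℝ) + N) := by
  classical
  set S : Finset ℕ := (Finset.Icc 1 D).filter (fun h => H h ^ 2 ≤ k * H D) with hS
  have h1S : 1 ∈ S := by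
    rw [hS, Finset.mem_filter, Finset.mem_Icc, h1]
    exact ⟨⟨le_rfl, hD⟩, by have := Nat.mul_le_mul hk (hpos D hD); omega⟩
  obtain ⟨h, hh⟩ : ∃ h, h = S.max' ⟨1, h1S⟩ := ⟨_, rfl⟩
  have hhS : h ∈ S := by rw [hh]; exact Finset.max'_mem _ _
  have hmax : ∀ j ∈ S, j ≤ h := fun j hj => by rw [hh]; exact Finset.le_max' _ _ hj
  rw [hS, Finset.mem_filter, Finset.mem_Icc] at hhS
  obtain ⟨⟨hh1, hhD⟩, hhs⟩ := hhS
  have hHD : (1 : ℝ) ≤ H D := by exact_mod_cast hpos D hD
  have hkr : (1 : ℝ) ≤ k := by exact_mod_cast hk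
  obtain ⟨s, hs⟩ : ∃ s, s = √((k : ℝ) * H D) := ⟨_, rfl⟩
  have hs2 : s * s = (k : ℝ) * H D := by
    rw [hs]; exact Real.mul_self_sqrt (by positivity)
  have hs0 : 0 < s := by
    rw [hs]; exact Real.sqrt_pos.2 (by positivity)
  have hHh : (1 : ℝ) ≤ H h := by exact_mod_cast hpos h hh1
  have hHs : (H h : ℝ) ≤ s := by
    have h2 : ((H h : ℝ)) ^ 2 ≤ (k : ℝ) * H D := by exact_mod_cast hhs
    nlinarith
  have h4 : ((4 : ℝ)) ^ n = 2 ^ n * 2 ^ n := by
    rw [← mul_pow]; norm_num
  have h2n : (1 : ℝ) ≤ 2 ^ n := one_le_pow₀ (by norm_num)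
  have hmain : (H h : ℝ) * w ≤ 2 ^ n * (s * s) + H h * (H h + N) := by
    have h3 : H h * w ≤ k * (2 ^ n * H D) + H h * (H h + N) :=
      (hw h hh1 hhD).trans (Nat.add_le_add_left (Nat.mul_le_mul_left _ (by omega)) _)
    have h5 : (H h : ℝ) * w ≤ k * (2 ^ n * H D) + H h * (H h + N) := by exact_mod_cast h3
    rw [hs2]
    linarith
  rcases lt_or_eq_of_le hhD with hlt | heq
  · have hnot : h + 1 ∉ S := fun h5 => by have := hmax _ h5; omega
    have h6 : k * H D < H (h + 1) ^ 2 := by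
      by_contra h7
      push Not at h7
      exact hnot (by
        rw [hS, Finset.mem_filter, Finset.mem_Icc]
        exact ⟨⟨by omega, hlt⟩, h7⟩)
    have h7 : (k : ℝ) * H D < (H (h + 1) : ℝ) ^ 2 := by exact_mod_cast h6
    have h8 : (H (h + 1) : ℝ) ≤ 2 ^ n * H h := by exact_mod_cast hgrow h hh1
    have h9 : s ≤ H (h + 1) := by
      have h10 : (0 : ℝ) ≤ H (h + 1) := by positivity
      nlinarith
    have h11 : s ≤ 2 ^ n * H h := h9.trans h8
    have h12 : 2 ^ n * (s * s) ≤ H h * (4 ^ n * s) := by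
      rw [h4]
      have : s * s ≤ s * (2 ^ n * H h) := mul_le_mul_of_nonneg_left h11 hs0.le
      calc 2 ^ n * (s * s) ≤ 2 ^ n * (s * (2 ^ n * H h)) :=
            mul_le_mul_of_nonneg_left this (by positivity)
        _ = _ := by ring
    have h13 : (w : ℝ) ≤ 4 ^ n * s + s + N := by
      have h14 : (H h : ℝ) * w ≤ H h * (4 ^ n * s + s + N) := by nlinarith
      exact le_of_mul_le_mul_left h14 (by linarith)
    refine ⟨?_, ?_⟩
    · rw [← hs]
      have : (0 : ℝ) ≤ 2 ^ n * k := by positivity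
      linarith
    · intro hk1 _
      subst hk1
      rw [Nat.cast_one, one_mul] at hs
      rw [← hs]
      linarith
  · subst heq
    refine ⟨?_, ?_⟩
    · rw [← hs]
      have h14 : (H h : ℝ) * w ≤ H h * (2 ^ n * k + s + N) := by
        rw [hs2] at hmain
        nlinarith
      have h15 := le_of_mul_le_mul_left h14 (by linarith)
      have : (0 : ℝ) ≤ 4 ^ n * s := by positivity
      linarith
    · intro hk1 hwH
      subst hk1
      rw [one_mul] at hhs
      have h16 : H h ≤ 1 := by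
        by_contra h17
        push Not at h17
        nlinarith
      have h18 : (w : ℝ) ≤ 1 := by exact_mod_cast hwH.trans h16
      have h19 : (1 : ℝ) ≤ √(H h : ℝ) := Real.one_le_sqrt.2 hHh
      have h20 : (0 : ℝ) ≤ 4 ^ n * √(H h : ℝ) := by positivity
      have h21 : (0 : ℝ) ≤ N := by positivity
      linarith

theorem finrank_box_one {n : ℕ} (t : Fin n → ℂ) : finrank QB (boxV t 1) = 1 := by
  have h1 := finrank_boxV_pos t (N := 1) le_rfl
  have h2 := finrank_boxV_le t 1
  rw [one_pow] at h2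
  omega

theorem box_grow {n : ℕ} (t : Fin n → ℂ) (h : ℕ) (hh : 1 ≤ h) :
    finrank QB (boxV t (h + 1)) ≤ 2 ^ n * finrank QB (boxV t h) :=
  (Submodule.finrank_mono (boxV_mono t (by omega))).trans (boxV_double t h)

/-- several bases -/
theorem many (V F : Submodule QB ℂ) [Module.Finite QB V] [Module.Finite QB F] {n : ℕ}
    (t : Fin n → ℂ) (D : ℕ) :
    (finrank QB ((V * boxV t D) ⊓ (Lt ⊔ F) : Submodule QB ℂ) : ℝ) ≤
      (4 ^ n + 1) * √((finrank QB V : ℝ) * finrank QB (boxV t D)) + 2 ^ n * finrank QB V +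
        finrank QB F := by
  have hfin := finite_mul V (boxV t D)
  have hle : finrank QB ((V * boxV t D) ⊓ (Lt ⊔ F) : Submodule QB ℂ) ≤
      finrank QB V * finrank QB (boxV t D) :=
    (Submodule.finrank_mono inf_le_left).trans (finrank_mul_le _ _)
  rcases Nat.eq_zero_or_pos D with hD | hD
  · subst hD
    have h0 : finrank QB (boxV t 0) ≤ 1 := by
      refine (finrank_boxV_le t 0).trans ?_
      rcases Nat.eq_zero_or_pos n with rfl | hn
      · simp
      · rw [zero_pow hn.ne']; exact Nat.zero_le _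
    have h1 : finrank QB ((V * boxV t 0) ⊓ (Lt ⊔ F) : Submodule QB ℂ) ≤ finrank QB V := by
      refine hle.trans ?_
      calc finrank QB V * finrank QB (boxV t 0) ≤ finrank QB V * 1 := Nat.mul_le_mul_left _ h0
        _ = _ := mul_one _
    have h2 : (finrank QB ((V * boxV t 0) ⊓ (Lt ⊔ F) : Submodule QB ℂ) : ℝ) ≤ finrank QB V := by
      exact_mod_cast h1
    have h3 : (1 : ℝ) ≤ 2 ^ n := one_le_pow₀ (by norm_num)
    have h4 : (finrank QB V : ℝ) ≤ 2 ^ n * finrank QB V := by
      have : (0 : ℝ) ≤ finrank QB V := by positivity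
      nlinarith
    have h5 : (0 : ℝ) ≤ (4 ^ n + 1) * √((finrank QB V : ℝ) * finrank QB (boxV t 0)) := by positivity
    have h6 : (0 : ℝ) ≤ finrank QB F := by positivity
    linarith
  · rcases Nat.eq_zero_or_pos (finrank QB V) with hV | hV
    · rw [hV, zero_mul] at hle
      have h2 : (finrank QB ((V * boxV t D) ⊓ (Lt ⊔ F) : Submodule QB ℂ) : ℝ) ≤ 0 := by
        exact_mod_cast hle
      have h5 : (0 : ℝ) ≤ (4 ^ n + 1) * √((finrank QB V : ℝ) * finrank QB (boxV t D)) +
        2 ^ n * finrank QB V + finrank QB F := by positivity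
      linarith
    · exact (optimize n (finrank QB V) (finrank QB F) _ D (fun h => finrank QB (boxV t h)) hD
        (finrank_box_one t) (fun h hh => finrank_boxV_pos t hh) hV (fun h hh => box_grow t h hh)
        (fun h _ hhD => core V F t D h hhD _ inf_le_left inf_le_right)).1

/-- the exponents `x` in the box such that `c x` is in the space `L` -/
noncomputable def exps (L : Submodule QB ℂ) {n : ℕ} (t : Fin n → ℂ) (c : ℂ) (D : ℕ) :
    Submodule QB ℂ :=
  boxV t D ⊓ L.comap (LinearMap.mulLeft QB c)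

/-- one base -/
theorem one (F : Submodule QB ℂ) [Module.Finite QB F] {n : ℕ} (t : Fin n → ℂ) {c : ℂ} (hc : c ≠ 0)
    {D : ℕ} (hD : 1 ≤ D) :
    (finrank QB (exps (Lt ⊔ F) t c D) : ℝ) ≤
      (4 ^ n + 1) * √(finrank QB (boxV t D) : ℝ) + finrank QB F := by
  have hinj : Function.Injective (LinearMap.mulLeft QB c) := mul_right_injective₀ hc
  set W : Submodule QB ℂ := (exps (Lt ⊔ F) t c D).map (LinearMap.mulLeft QB c) with hW
  have hWr : finrank QB W = finrank QB (exps (Lt ⊔ F) t c D) :=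
    (Submodule.equivMapOfInjective _ hinj _).finrank_eq.symm
  have hWV : W ≤ Submodule.span QB {c} * boxV t D := by
    rintro _ ⟨x, hx, rfl⟩
    exact Submodule.mul_mem_mul (Submodule.mem_span_singleton_self c) hx.1
  have hWL : W ≤ Lt ⊔ F := by
    rintro _ ⟨x, hx, rfl⟩
    exact hx.2
  have hV : finrank QB (Submodule.span QB {c}) = 1 := finrank_span_singleton hc
  have hle : finrank QB W ≤ finrank QB (boxV t D) := by
    rw [hWr]
    exact Submodule.finrank_mono inf_le_left
  rw [← hWr]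
  exact (optimize n (finrank QB (Submodule.span QB {c})) (finrank QB F) (finrank QB W) D
    (fun h => finrank QB (boxV t h)) hD (finrank_box_one t) (fun h hh => finrank_boxV_pos t hh)
    hV.ge (fun h hh => box_grow t h hh)
    (fun h _ hhD => core _ F t D h hhD W hWV hWL)).2 hV hle

/-- integral points of a subspace -/
theorem count_points {ι : Type} [Fintype ι] [DecidableEq ι] (S : Submodule QB (ι → QB)) (M : ℕ)
    (A : Finset (ι → ℤ)) (hA : ∀ a ∈ A, (∀ i, |a i| ≤ M) ∧ (fun i => ((a i : ℤ) : QB)) ∈ S) :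
    A.card ≤ (2 * M + 1) ^ finrank QB S := by
  classical
  obtain ⟨r, e, v, hr, hv, hev, hw⟩ := pivot_basis S
  rw [hr]
  have h1 : A.card ≤ (Fintype.piFinset (fun _ : Fin r => Finset.Icc (-(M : ℤ)) M)).card := by
    refine Finset.card_le_card_of_injOn (fun a k => a (e k)) ?_ ?_
    · intro a ha
      rw [Finset.mem_coe] at ha
      rw [Finset.mem_coe, Fintype.mem_piFinset]
      intro k
      rw [Finset.mem_Icc]
      exact abs_le.1 ((hA a ha).1 (e k))
    · intro a ha b hb hab
      rw [Finset.mem_coe] at ha hb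
      funext i
      have h2 := hw _ (hA a ha).2 i
      have h3 := hw _ (hA b hb).2 i
      have h4 : ((a i : ℤ) : QB) = ((b i : ℤ) : QB) := by
        rw [h2, h3]
        refine Finset.sum_congr rfl fun k _ => ?_
        have h5 : a (e k) = b (e k) := congrFun hab k
        rw [h5]
      exact_mod_cast h4
  refine h1.trans (le_of_eq ?_)
  rw [Fintype.card_piFinset, Finset.prod_const, Finset.card_univ, Fintype.card_fin, Int.card_Icc]
  congr 1
  omega

/-- few integer polynomials -/
theorem count_poly (F : Submodule QB ℂ) [Module.Finite QB F] {n : ℕ} (t : Fin n → ℂ) {c : ℂ}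
    (hc : c ≠ 0) {D : ℕ} (hD : 1 ≤ D) (M : ℕ) (A : Finset ((Fin n → Fin D) → ℤ))
    (hA : ∀ a ∈ A, (∀ e, |a e| ≤ M) ∧
      c * ∑ e, (a e : ℂ) * ∏ i, t i ^ (e i : ℕ) ∈ Lt ⊔ F) :
    (A.card : ℝ) ≤ (2 * M + 1) ^ ((D : ℝ) ^ n - finrank QB (boxV t D) +
      (4 ^ n + 1) * √(finrank QB (boxV t D) : ℝ) + finrank QB F) := by
  classical
  set Ψ : ((Fin n → Fin D) → QB) →ₗ[QB] ℂ :=
    Fintype.linearCombination QB (fun e : Fin n → Fin D => ∏ i, t i ^ (e i : ℕ)) with hΨ
  have hrange : LinearMap.range Ψ = boxV t D := by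
    rw [hΨ, Fintype.range_linearCombination]
    rfl
  set S : Submodule QB ((Fin n → Fin D) → QB) :=
    (Lt ⊔ F).comap ((LinearMap.mulLeft QB c).comp Ψ) with hS
  have h1 : A.card ≤ (2 * M + 1) ^ finrank QB S := by
    refine count_points S M A fun a ha => ⟨(hA a ha).1, ?_⟩
    have h2 := (hA a ha).2
    change c * Ψ (fun e => ((a e : ℤ) : QB)) ∈ Lt ⊔ F
    rw [hΨ, Fintype.linearCombination_apply]
    convert h2 using 3 with e he
    rw [Algebra.smul_def, map_intCast]
  have hk : finrank QB (LinearMap.ker Ψ) + finrank QB (boxV t D) = D ^ n := by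
    have h3 := LinearMap.finrank_range_add_finrank_ker Ψ
    rw [hrange, Module.finrank_fintype_fun_eq_card, Fintype.card_fun, Fintype.card_fin,
      Fintype.card_fin] at h3
    omega
  have hS2 : finrank QB S ≤ finrank QB (LinearMap.ker Ψ) + finrank QB (exps (Lt ⊔ F) t c D) := by
    have h4 := LinearMap.finrank_range_add_finrank_ker (Ψ.domRestrict S)
    have h5 : finrank QB (LinearMap.range (Ψ.domRestrict S)) ≤
        finrank QB (exps (Lt ⊔ F) t c D) := by
      have : Module.Finite QB (exps (Lt ⊔ F) t c D) :=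
        Submodule.finiteDimensional_of_le (inf_le_left : exps (Lt ⊔ F) t c D ≤ boxV t D)
      refine Submodule.finrank_mono ?_
      rintro _ ⟨y, rfl⟩
      refine ⟨?_, y.2⟩
      rw [SetLike.mem_coe, ← hrange]
      exact ⟨y, rfl⟩
    have h6 : finrank QB (LinearMap.ker (Ψ.domRestrict S)) ≤ finrank QB (LinearMap.ker Ψ) := by
      let j : LinearMap.ker (Ψ.domRestrict S) →ₗ[QB] LinearMap.ker Ψ :=
        LinearMap.codRestrict _ (S.subtype.comp (LinearMap.ker (Ψ.domRestrict S)).subtype)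
          (fun y => y.2)
      refine LinearMap.finrank_le_finrank_of_injective (f := j) ?_
      intro a b hab
      have h7 := congrArg (fun z : LinearMap.ker Ψ => (z : (Fin n → Fin D) → QB)) hab
      exact Subtype.ext (Subtype.ext h7)
    omega
  have hone := one F t hc hD
  have h8 : (finrank QB S : ℝ) ≤ (D : ℝ) ^ n - finrank QB (boxV t D) +
      (4 ^ n + 1) * √(finrank QB (boxV t D) : ℝ) + finrank QB F := by
    have h9 : (finrank QB S : ℝ) ≤ finrank QB (LinearMap.ker Ψ) +
      finrank QB (exps (Lt ⊔ F) t c D) := by exact_mod_cast hS2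
    have h10 : (finrank QB (LinearMap.ker Ψ) : ℝ) + finrank QB (boxV t D) = (D : ℝ) ^ n := by
      exact_mod_cast hk
    linarith
  calc (A.card : ℝ) ≤ ((2 * (M : ℝ) + 1)) ^ finrank QB S := by exact_mod_cast h1
    _ = (2 * (M : ℝ) + 1) ^ (finrank QB S : ℝ) := (Real.rpow_natCast _ _).symm
    _ ≤ _ := Real.rpow_le_rpow_of_exponent_le (by
        have : (0 : ℝ) ≤ M := by positivity
        linarith) h8

end Run7.h119.RX
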