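import Pool.Agent.Run7.h119.RX.Core

set_option autoImplicit false

namespace Run7.h119.RX

open Module Finset Pool.Agent.H301R2.SSE Pool.Agent.W254.HP Polynomial

/-- few integer polynomials in one transcendental number -/
theorem count_one (F : Submodule QB ℂ) [Module.Finite QB F] {t : ℂ} (ht : Transcendental ℚ t)
    {c : ℂ} (hc : c ≠ 0) (D M : ℕ) (A : Finset (Fin (D + 1) → ℤ))
    (hA : ∀ a ∈ A, (∀ e, |a e| ≤ M) ∧ c * ∑ e, (a e : ℂ) * t ^ (e : ℕ) ∈ Lt ⊔ F) :
    (A.card : ℝ) ≤ (2 * M + 1) ^ (2 * √(D : ℝ) + 1 + finrank QB F) := by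
  classical
  set Ψ : (Fin (D + 1) → QB) →ₗ[QB] ℂ :=
    Fintype.linearCombination QB (fun e : Fin (D + 1) => t ^ (e : ℕ)) with hΨ
  set S : Submodule QB (Fin (D + 1) → QB) :=
    (Lt ⊔ F).comap ((LinearMap.mulLeft QB c).comp Ψ) with hS
  have h1 : A.card ≤ (2 * M + 1) ^ finrank QB S := by
    refine count_points S M A fun a ha => ⟨(hA a ha).1, ?_⟩
    have h2 := (hA a ha).2
    change c * Ψ (fun e => ((a e : ℤ) : QB)) ∈ Lt ⊔ F
    rw [hΨ, Fintype.linearCombination_apply]
    convert h2 using 3 with e he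
    rw [Algebra.smul_def, map_intCast]
  have hfin : Module.Finite QB (degreeLT QB (D + 1)) :=
    Module.Finite.equiv (degreeLTEquiv QB (D + 1)).symm
  have hfin2 : Module.Finite QB (Run7.h788.ExpSp.polys (Lt ⊔ F) t c D) :=
    Submodule.finiteDimensional_of_le
      (inf_le_left : Run7.h788.ExpSp.polys (Lt ⊔ F) t c D ≤ degreeLT QB (D + 1))
  have hval : ∀ a : Fin (D + 1) → QB,
      aeval t (((degreeLTEquiv QB (D + 1)).symm a : degreeLT QB (D + 1)) : QB[X]) = Ψ a := by
    intro a
    rw [hΨ, Fintype.linearCombination_apply]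
    change aeval t (∑ i : Fin (D + 1), monomial (i : ℕ) (a i)) = _
    rw [map_sum]
    refine Finset.sum_congr rfl fun i _ => ?_
    rw [aeval_monomial, Algebra.smul_def]
  have hS2 : finrank QB S ≤ finrank QB (Run7.h788.ExpSp.polys (Lt ⊔ F) t c D) := by
    let j : S →ₗ[QB] Run7.h788.ExpSp.polys (Lt ⊔ F) t c D :=
      LinearMap.codRestrict _
        ((degreeLT QB (D + 1)).subtype.comp
          ((degreeLTEquiv QB (D + 1)).symm.toLinearMap.comp S.subtype))
        (fun y => ⟨((degreeLTEquiv QB (D + 1)).symm (y : Fin (D + 1) → QB)).2, by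
          have h3 := y.2
          change c * aeval t (((degreeLTEquiv QB (D + 1)).symm (y : Fin (D + 1) → QB) :
            degreeLT QB (D + 1)) : QB[X]) ∈ Lt ⊔ F
          rw [hval]
          exact h3⟩)
    refine LinearMap.finrank_le_finrank_of_injective (f := j) ?_
    intro a b hab
    have h7 := congrArg (fun z : Run7.h788.ExpSp.polys (Lt ⊔ F) t c D => (z : QB[X])) hab
    have h8 : (degreeLTEquiv QB (D + 1)).symm (a : Fin (D + 1) → QB) =
        (degreeLTEquiv QB (D + 1)).symm (b : Fin (D + 1) → QB) := Subtype.ext h7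
    exact Subtype.ext ((degreeLTEquiv QB (D + 1)).symm.injective h8)
  have h8 : (finrank QB S : ℝ) ≤ 2 * √(D : ℝ) + 1 + finrank QB F := by
    have h9 : (finrank QB S : ℝ) ≤ finrank QB (Run7.h788.ExpSp.polys (Lt ⊔ F) t c D) := by
      exact_mod_cast hS2
    exact h9.trans (Run7.h788.ExpSp.polys_sqrt F ht hc D)
  calc (A.card : ℝ) ≤ ((2 * (M : ℝ) + 1)) ^ finrank QB S := by exact_mod_cast h1
    _ = (2 * (M : ℝ) + 1) ^ (finrank QB S : ℝ) := (Real.rpow_natCast _ _).symm
    _ ≤ _ := Real.rpow_le_rpow_of_exponent_le (by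
        have : (0 : ℝ) ≤ M := by positivity
        linarith) h8

/-- the box grows if one of the numbers is transcendental -/
theorem le_box {n : ℕ} (t : Fin n → ℂ) (i : Fin n) (hi : Transcendental ℚ (t i)) (D : ℕ) :
    D ≤ finrank QB (boxV t D) := by
  have h1 := pow_indep hi D
  have hmem : ∀ k : Fin D, t i ^ (k : ℕ) ∈ boxV t D := by
    intro k
    have h2 := mon_mem t D (fun j => if j = i then (k : ℕ) else 0) (fun j => by
      split_ifs
      · exact k.2
      · exact lt_of_le_of_lt (Nat.zero_le _) k.2)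
    convert h2 using 1
    rw [Finset.prod_eq_single i]
    · rw [if_pos rfl]
    · intro j _ hj
      rw [if_neg hj, pow_zero]
    · intro h
      exact absurd (Finset.mem_univ _) h
  have h3 : LinearIndependent QB (fun k : Fin D => (⟨t i ^ (k : ℕ), hmem k⟩ : boxV t D)) :=
    LinearIndependent.of_comp (boxV t D).subtype h1
  have h4 := h3.fintype_card_le_finrank
  rwa [Fintype.card_fin] at h4

end Run7.h119.RX
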