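import Pool.Agent.Run7.h119.RX.Poly

/-!
# Random exponents
-/

set_option autoImplicit false

namespace Run7.h119.RX

open Module Finset Pool.Agent.H301R2.SSE Pool.Agent.W254.HP Polynomial MeasureTheory
  ProbabilityTheory Filter
open scoped ENNReal

instance : Countable QB := by
  have h : Set.Countable ((QB : IntermediateField ℚ ℂ) : Set ℂ) :=
    (Algebraic.countable ℚ ℂ).mono fun x hx => mem_algebraicClosure_iff.1 hx
  exact h.to_subtype

/-- A random point with independent coordinates is rarely in a given subspace. -/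
theorem prob_subspace {ι : Type} [Fintype ι] [DecidableEq ι] {Ω : Type} [MeasurableSpace Ω]
    (μ : Measure Ω) [IsProbabilityMeasure μ] (ξ : ι → Ω → ℂ) (hm : ∀ i, Measurable (ξ i))
    (hi : iIndepFun ξ μ) (p : ℝ≥0∞) (hp : ∀ i x, μ {ω | ξ i ω = x} ≤ p)
    (S : Submodule QB (ι → QB)) :
    μ {ω | ∃ y ∈ S, ∀ i, ξ i ω = ((y i : QB) : ℂ)} ≤ p ^ (Fintype.card ι - finrank QB S) := by
  classical
  obtain ⟨r, e, v, hr, hv, hev, hw⟩ := pivot_basis S
  rw [hr]
  have he : Function.Injective e := by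
    intro k k' h
    by_contra hne
    have h1 := hev k k'
    have h2 := hev k' k'
    rw [if_neg hne] at h1
    rw [if_pos rfl, ← h, h1] at h2
    exact zero_ne_one h2
  set Y : (Fin r → QB) → ι → QB := fun x i => ∑ k, x k * v k i with hY
  have hYe : ∀ x k, Y x (e k) = x k := by
    intro x k
    rw [hY]
    change ∑ k', x k' * v k' (e k) = x k
    rw [Finset.sum_eq_single k]
    · rw [hev, if_pos rfl, mul_one]
    · intro k' _ hne
      rw [hev, if_neg (Ne.symm hne), mul_zero]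
    · intro h
      exact absurd (Finset.mem_univ k) h
  have hsub : {ω | ∃ y ∈ S, ∀ i, ξ i ω = ((y i : QB) : ℂ)} ⊆
      ⋃ x : Fin r → QB, ⋂ i ∈ (univ : Finset ι), ξ i ⁻¹' {((Y x i : QB) : ℂ)} := by
    rintro ω ⟨y, hy, h1⟩
    rw [Set.mem_iUnion]
    refine ⟨fun k => y (e k), ?_⟩
    rw [Set.mem_iInter₂]
    intro i _
    rw [Set.mem_preimage, Set.mem_singleton_iff, h1 i, hw y hy i]
  set P : Finset ι := univ.image e with hP
  have hPc : P.card = r := by
    rw [hP, Finset.card_image_of_injective _ he, Finset.card_univ, Fintype.card_fin]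
  have hone : ∀ x, μ (⋂ i ∈ (univ : Finset ι), ξ i ⁻¹' {((Y x i : QB) : ℂ)}) ≤
      μ (⋂ i ∈ P, ξ i ⁻¹' {((Y x i : QB) : ℂ)}) * p ^ (Fintype.card ι - r) := by
    intro x
    rw [hi.measure_inter_preimage_eq_mul univ (fun i _ => MeasurableSet.singleton _),
      hi.measure_inter_preimage_eq_mul P (fun i _ => MeasurableSet.singleton _),
      ← Finset.prod_mul_prod_compl P]
    refine mul_le_mul' le_rfl ?_
    calc ∏ i ∈ Pᶜ, μ (ξ i ⁻¹' {((Y x i : QB) : ℂ)}) ≤ ∏ _i ∈ Pᶜ, p :=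
          Finset.prod_le_prod' fun i _ => hp i _
      _ = p ^ (Fintype.card ι - r) := by rw [Finset.prod_const, Finset.card_compl, hPc]
  have hmeas : ∀ x : Fin r → QB, MeasurableSet (⋂ i ∈ P, ξ i ⁻¹' {((Y x i : QB) : ℂ)}) := by
    intro x
    refine Finset.measurableSet_biInter _ fun i _ => ?_
    exact hm i (MeasurableSet.singleton _)
  have hdisj : Pairwise (Function.onFun Disjoint
      (fun x : Fin r → QB => ⋂ i ∈ P, ξ i ⁻¹' {((Y x i : QB) : ℂ)})) := by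
    intro x x' hne
    refine Set.disjoint_left.2 fun ω h1 h2 => hne ?_
    funext k
    rw [Set.mem_iInter₂] at h1 h2
    have hk : e k ∈ P := by
      rw [hP]
      exact Finset.mem_image_of_mem _ (Finset.mem_univ _)
    have h3 := h1 (e k) hk
    have h4 := h2 (e k) hk
    rw [Set.mem_preimage, Set.mem_singleton_iff, hYe] at h3 h4
    exact Subtype.ext (h3.symm.trans h4)
  calc μ {ω | ∃ y ∈ S, ∀ i, ξ i ω = ((y i : QB) : ℂ)}
      ≤ μ (⋃ x : Fin r → QB, ⋂ i ∈ (univ : Finset ι), ξ i ⁻¹' {((Y x i : QB) : ℂ)}) :=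
        measure_mono hsub
    _ ≤ ∑' x : Fin r → QB, μ (⋂ i ∈ (univ : Finset ι), ξ i ⁻¹' {((Y x i : QB) : ℂ)}) :=
        measure_iUnion_le _
    _ ≤ ∑' x : Fin r → QB, μ (⋂ i ∈ P, ξ i ⁻¹' {((Y x i : QB) : ℂ)}) *
          p ^ (Fintype.card ι - r) := ENNReal.tsum_le_tsum hone
    _ = (∑' x : Fin r → QB, μ (⋂ i ∈ P, ξ i ⁻¹' {((Y x i : QB) : ℂ)})) *
          p ^ (Fintype.card ι - r) := ENNReal.tsum_mul_right
    _ ≤ 1 * p ^ (Fintype.card ι - r) :=
        mul_le_mul' ((tsum_meas_le_meas_iUnion_of_disjoint μ hmeas hdisj).trans prob_le_one) le_rfl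
    _ = _ := one_mul _

/-- the real form -/
theorem prob_real {ι : Type} [Fintype ι] [DecidableEq ι] {Ω : Type} [MeasurableSpace Ω]
    (μ : Measure Ω) [IsProbabilityMeasure μ] (ξ : ι → Ω → ℂ) (hm : ∀ i, Measurable (ξ i))
    (hi : iIndepFun ξ μ) (ha : ∀ i ω, IsAlgebraic ℚ (ξ i ω)) {p : ℝ} (hp0 : 0 < p) (hp1 : p ≤ 1)
    (hp : ∀ i x, μ.real {ω | ξ i ω = x} ≤ p) (S : Submodule QB (ι → QB)) (B : Set Ω)
    (hB : ∀ ω ∈ B, ∀ y : ι → QB, (∀ i, ξ i ω = ((y i : QB) : ℂ)) → y ∈ S) {a : ℝ}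
    (hS : (finrank QB S : ℝ) ≤ Fintype.card ι - a) : μ.real B ≤ p ^ a := by
  have h0 : ∀ i x, μ {ω | ξ i ω = x} ≤ ENNReal.ofReal p := by
    intro i x
    rw [← ofReal_measureReal (measure_ne_top μ _)]
    exact ENNReal.ofReal_le_ofReal (hp i x)
  have h1 := prob_subspace μ ξ hm hi (ENNReal.ofReal p) h0 S
  have h2 : B ⊆ {ω | ∃ y ∈ S, ∀ i, ξ i ω = ((y i : QB) : ℂ)} := by
    intro ω hω
    refine ⟨fun i => ⟨ξ i ω, mem_algebraicClosure_iff.2 (ha i ω)⟩, ?_, fun i => rfl⟩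
    exact hB ω hω _ fun i => rfl
  have h3 : μ B ≤ ENNReal.ofReal (p ^ (Fintype.card ι - finrank QB S)) := by
    rw [ENNReal.ofReal_pow hp0.le]
    exact (measure_mono h2).trans h1
  have h4 : μ.real B ≤ p ^ (Fintype.card ι - finrank QB S) :=
    ENNReal.toReal_le_of_le_ofReal (by positivity) h3
  have h5 : finrank QB S ≤ Fintype.card ι := by
    have h6 := Submodule.finrank_le S
    rwa [Module.finrank_fintype_fun_eq_card] at h6
  refine h4.trans ?_
  rw [← Real.rpow_natCast]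
  refine Real.rpow_le_rpow_of_exponent_ge hp0 hp1 ?_
  rw [Nat.cast_sub h5]
  linarith

/-- the space of the exceptional coefficients, several numbers -/
theorem subspace_box (F : Submodule QB ℂ) [Module.Finite QB F] {n : ℕ} (t : Fin n → ℂ) {c : ℂ}
    (hc : c ≠ 0) {D : ℕ} (hD : 1 ≤ D) : ∃ S : Submodule QB ((Fin n → Fin D) → QB),
      (∀ y : (Fin n → Fin D) → QB, c * ∑ e, ((y e : QB) : ℂ) * ∏ i, t i ^ (e i : ℕ) ∈ Lt ⊔ F →
        y ∈ S) ∧
      (finrank QB S : ℝ) ≤ Fintype.card (Fin n → Fin D) - ((finrank QB (boxV t D) : ℝ) -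
        (4 ^ n + 1) * √(finrank QB (boxV t D) : ℝ) - finrank QB F) := by
  classical
  set Ψ : ((Fin n → Fin D) → QB) →ₗ[QB] ℂ :=
    Fintype.linearCombination QB (fun e : Fin n → Fin D => ∏ i, t i ^ (e i : ℕ)) with hΨ
  have hrange : LinearMap.range Ψ = boxV t D := by
    rw [hΨ, Fintype.range_linearCombination]
    rfl
  set S : Submodule QB ((Fin n → Fin D) → QB) :=
    (Lt ⊔ F).comap ((LinearMap.mulLeft QB c).comp Ψ) with hS
  have hk : finrank QB (LinearMap.ker Ψ) + finrank QB (boxV t D) =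
      Fintype.card (Fin n → Fin D) := by
    have h3 := LinearMap.finrank_range_add_finrank_ker Ψ
    rw [hrange, Module.finrank_fintype_fun_eq_card] at h3
    omega
  have hS2 : finrank QB S ≤ finrank QB (LinearMap.ker Ψ) + finrank QB (exps (Lt ⊔ F) t c D) := by
    have h4 := LinearMap.finrank_range_add_finrank_ker (Ψ.domRestrict S)
    have h5 : finrank QB (LinearMap.range (Ψ.domRestrict S)) ≤
        finrank QB (exps (Lt ⊔ F) t c D) := by
      have : Module.Finite QB (exps (Lt ⊔ F) t c D) :=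
        Submodule.finiteDimensional_of_le (inf_le_left : exps (Lt ⊔ F) t c D ≤ boxV t D)
      refine Submodule.finrank_mono ?_
      rintro _ ⟨y, rfl⟩
      refine ⟨?_, y.2⟩
      rw [SetLike.mem_coe, ← hrange]
      exact ⟨y, rfl⟩
    have h6 : finrank QB (LinearMap.ker (Ψ.domRestrict S)) ≤ finrank QB (LinearMap.ker Ψ) := by
      let j : LinearMap.ker (Ψ.domRestrict S) →ₗ[QB] LinearMap.ker Ψ :=
        LinearMap.codRestrict _ (S.subtype.comp (LinearMap.ker (Ψ.domRestrict S)).subtype)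
          (fun y => y.2)
      refine LinearMap.finrank_le_finrank_of_injective (f := j) ?_
      intro a b hab
      have h7 := congrArg (fun z : LinearMap.ker Ψ => (z : (Fin n → Fin D) → QB)) hab
      exact Subtype.ext (Subtype.ext h7)
    omega
  have hone := one F t hc hD
  refine ⟨S, ?_, ?_⟩
  · intro y hy
    change c * Ψ y ∈ Lt ⊔ F
    rw [hΨ, Fintype.linearCombination_apply]
    convert hy using 3 with e he
    rw [Algebra.smul_def]
    rfl
  · have h9 : (finrank QB S : ℝ) ≤ finrank QB (LinearMap.ker Ψ) +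
      finrank QB (exps (Lt ⊔ F) t c D) := by exact_mod_cast hS2
    have h10 : (finrank QB (LinearMap.ker Ψ) : ℝ) + finrank QB (boxV t D) =
        Fintype.card (Fin n → Fin D) := by
      exact_mod_cast hk
    linarith

/-- the space of the exceptional coefficients, one transcendental number -/
theorem subspace_one (F : Submodule QB ℂ) [Module.Finite QB F] {t : ℂ} (ht : Transcendental ℚ t)
    {c : ℂ} (hc : c ≠ 0) (D : ℕ) : ∃ S : Submodule QB (Fin (D + 1) → QB),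
      (∀ y : Fin (D + 1) → QB, c * ∑ e, ((y e : QB) : ℂ) * t ^ (e : ℕ) ∈ Lt ⊔ F → y ∈ S) ∧
      (finrank QB S : ℝ) ≤ Fintype.card (Fin (D + 1)) - ((D : ℝ) - 2 * √(D : ℝ) -
        finrank QB F) := by
  classical
  set Ψ : (Fin (D + 1) → QB) →ₗ[QB] ℂ :=
    Fintype.linearCombination QB (fun e : Fin (D + 1) => t ^ (e : ℕ)) with hΨ
  set S : Submodule QB (Fin (D + 1) → QB) :=
    (Lt ⊔ F).comap ((LinearMap.mulLeft QB c).comp Ψ) with hS
  have hfin : Module.Finite QB (degreeLT QB (D + 1)) :=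
    Module.Finite.equiv (degreeLTEquiv QB (D + 1)).symm
  have hfin2 : Module.Finite QB (Run7.h788.ExpSp.polys (Lt ⊔ F) t c D) :=
    Submodule.finiteDimensional_of_le
      (inf_le_left : Run7.h788.ExpSp.polys (Lt ⊔ F) t c D ≤ degreeLT QB (D + 1))
  have hval : ∀ a : Fin (D + 1) → QB,
      aeval t (((degreeLTEquiv QB (D + 1)).symm a : degreeLT QB (D + 1)) : QB[X]) = Ψ a := by
    intro a
    rw [hΨ, Fintype.linearCombination_apply]
    change aeval t (∑ i : Fin (D + 1), monomial (i : ℕ) (a i)) = _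
    rw [map_sum]
    refine Finset.sum_congr rfl fun i _ => ?_
    rw [aeval_monomial, Algebra.smul_def]
  have hS2 : finrank QB S ≤ finrank QB (Run7.h788.ExpSp.polys (Lt ⊔ F) t c D) := by
    let j : S →ₗ[QB] Run7.h788.ExpSp.polys (Lt ⊔ F) t c D :=
      LinearMap.codRestrict _
        ((degreeLT QB (D + 1)).subtype.comp
          ((degreeLTEquiv QB (D + 1)).symm.toLinearMap.comp S.subtype))
        (fun y => ⟨((degreeLTEquiv QB (D + 1)).symm (y : Fin (D + 1) → QB)).2, by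
          have h3 := y.2
          change c * aeval t (((degreeLTEquiv QB (D + 1)).symm (y : Fin (D + 1) → QB) :
            degreeLT QB (D + 1)) : QB[X]) ∈ Lt ⊔ F
          rw [hval]
          exact h3⟩)
    refine LinearMap.finrank_le_finrank_of_injective (f := j) ?_
    intro a b hab
    have h7 := congrArg (fun z : Run7.h788.ExpSp.polys (Lt ⊔ F) t c D => (z : QB[X])) hab
    have h8 : (degreeLTEquiv QB (D + 1)).symm (a : Fin (D + 1) → QB) =
        (degreeLTEquiv QB (D + 1)).symm (b : Fin (D + 1) → QB) := Subtype.ext h7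
    exact Subtype.ext ((degreeLTEquiv QB (D + 1)).symm.injective h8)
  refine ⟨S, ?_, ?_⟩
  · intro y hy
    change c * Ψ y ∈ Lt ⊔ F
    rw [hΨ, Fintype.linearCombination_apply]
    convert hy using 3 with e he
    rw [Algebra.smul_def]
    rfl
  · have h9 : (finrank QB S : ℝ) ≤ finrank QB (Run7.h788.ExpSp.polys (Lt ⊔ F) t c D) := by
      exact_mod_cast hS2
    have h10 := Run7.h788.ExpSp.polys_sqrt F ht hc D
    rw [Fintype.card_fin]
    push_cast
    linarith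

/-- random exponents, several numbers -/
theorem prob_box (F : Submodule QB ℂ) [Module.Finite QB F] {n : ℕ} (t : Fin n → ℂ) {c : ℂ}
    (hc : c ≠ 0) {D : ℕ} (hD : 1 ≤ D) {Ω : Type} [MeasurableSpace Ω] (μ : Measure Ω)
    [IsProbabilityMeasure μ] (ξ : (Fin n → Fin D) → Ω → ℂ) (hm : ∀ i, Measurable (ξ i))
    (hi : iIndepFun ξ μ) (ha : ∀ i ω, IsAlgebraic ℚ (ξ i ω)) {p : ℝ} (hp0 : 0 < p) (hp1 : p ≤ 1)
    (hp : ∀ i x, μ.real {ω | ξ i ω = x} ≤ p) :
    μ.real {ω | c * ∑ e, ξ e ω * ∏ i, t i ^ (e i : ℕ) ∈ Lt ⊔ F} ≤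
      p ^ ((finrank QB (boxV t D) : ℝ) - (4 ^ n + 1) * √(finrank QB (boxV t D) : ℝ) -
        finrank QB F) := by
  classical
  obtain ⟨S, h1, h2⟩ := subspace_box F t hc hD
  refine prob_real μ ξ hm hi ha hp0 hp1 hp S _ ?_ h2
  intro ω hω y hy
  refine h1 y ?_
  have h3 : ∑ e, ((y e : QB) : ℂ) * ∏ i, t i ^ (e i : ℕ) = ∑ e, ξ e ω * ∏ i, t i ^ (e i : ℕ) :=
    Finset.sum_congr rfl fun e _ => by rw [hy e]
  rw [h3]
  exact hω

/-- random exponents, one transcendental number -/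
theorem prob_one (F : Submodule QB ℂ) [Module.Finite QB F] {t : ℂ} (ht : Transcendental ℚ t)
    {c : ℂ} (hc : c ≠ 0) (D : ℕ) {Ω : Type} [MeasurableSpace Ω] (μ : Measure Ω)
    [IsProbabilityMeasure μ] (ξ : Fin (D + 1) → Ω → ℂ) (hm : ∀ i, Measurable (ξ i))
    (hi : iIndepFun ξ μ) (ha : ∀ i ω, IsAlgebraic ℚ (ξ i ω)) {p : ℝ} (hp0 : 0 < p) (hp1 : p ≤ 1)
    (hp : ∀ i x, μ.real {ω | ξ i ω = x} ≤ p) :
    μ.real {ω | c * ∑ e, ξ e ω * t ^ (e : ℕ) ∈ Lt ⊔ F} ≤
      p ^ ((D : ℝ) - 2 * √(D : ℝ) - finrank QB F) := by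
  classical
  obtain ⟨S, h1, h2⟩ := subspace_one F ht hc D
  refine prob_real μ ξ hm hi ha hp0 hp1 hp S _ ?_ h2
  intro ω hω y hy
  refine h1 y ?_
  have h3 : ∑ e, ((y e : QB) : ℂ) * t ^ (e : ℕ) = ∑ e, ξ e ω * t ^ (e : ℕ) :=
    Finset.sum_congr rfl fun e _ => by rw [hy e]
  rw [h3]
  exact hω

/-- a union bound -/
theorem prob_union (F : Submodule QB ℂ) [Module.Finite QB F] (B : Finset (ℂ × ℂ))
    (hB : ∀ b ∈ B, b.1 ≠ 0 ∧ Transcendental ℚ b.2) (D : ℕ) {Ω : Type} [MeasurableSpace Ω]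
    (μ : Measure Ω) [IsProbabilityMeasure μ] (ξ : Fin (D + 1) → Ω → ℂ)
    (hm : ∀ i, Measurable (ξ i)) (hi : iIndepFun ξ μ) (ha : ∀ i ω, IsAlgebraic ℚ (ξ i ω)) {p : ℝ}
    (hp0 : 0 < p) (hp1 : p ≤ 1) (hp : ∀ i x, μ.real {ω | ξ i ω = x} ≤ p) :
    μ.real {ω | ∃ b ∈ B, b.1 * ∑ e, ξ e ω * b.2 ^ (e : ℕ) ∈ Lt ⊔ F} ≤
      B.card * p ^ ((D : ℝ) - 2 * √(D : ℝ) - finrank QB F) := by
  have h1 : {ω | ∃ b ∈ B, b.1 * ∑ e, ξ e ω * b.2 ^ (e : ℕ) ∈ Lt ⊔ F} =
      ⋃ b ∈ B, {ω | b.1 * ∑ e, ξ e ω * b.2 ^ (e : ℕ) ∈ Lt ⊔ F} := by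
    ext ω
    simp only [Set.mem_iUnion, Set.mem_ofPred_eq, exists_prop]
  rw [h1]
  refine (measureReal_biUnion_finset_le _ _).trans ?_
  calc ∑ b ∈ B, μ.real {ω | b.1 * ∑ e, ξ e ω * b.2 ^ (e : ℕ) ∈ Lt ⊔ F}
      ≤ ∑ _b ∈ B, p ^ ((D : ℝ) - 2 * √(D : ℝ) - finrank QB F) :=
        Finset.sum_le_sum fun b hb =>
          prob_one F (hB b hb).2 (hB b hb).1 D μ ξ hm hi ha hp0 hp1 hp
    _ = _ := by rw [Finset.sum_const, nsmul_eq_mul]

/-- almost surely, for all large degrees -/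
theorem ae_union (F : Submodule QB ℂ) [Module.Finite QB F] (B : ℕ → Finset (ℂ × ℂ))
    (hB : ∀ D, ∀ b ∈ B D, b.1 ≠ 0 ∧ Transcendental ℚ b.2) {Ω : Type} [MeasurableSpace Ω]
    (μ : Measure Ω) [IsProbabilityMeasure μ] (ξ : ℕ → Ω → ℂ)
    (hm : ∀ i, Measurable (ξ i)) (hi : iIndepFun ξ μ) (ha : ∀ i ω, IsAlgebraic ℚ (ξ i ω)) {p : ℝ}
    (hp0 : 0 < p) (hp1 : p < 1) (hp : ∀ i x, μ.real {ω | ξ i ω = x} ≤ p) (C κ : ℝ) (hC : 0 ≤ C)
    (hκ : κ < - Real.log p) (hcard : ∀ D : ℕ, ((B D).card : ℝ) ≤ C * Real.exp (κ * D)) :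
    ∀ᵐ ω ∂μ, ∀ᶠ D : ℕ in atTop, ∀ b ∈ B D,
      b.1 * ∑ j ∈ range (D + 1), ξ j ω * b.2 ^ j ∉ Lt ⊔ F := by
  set q : ℝ := - Real.log p with hq
  have hq0 : 0 < q := by
    rw [hq]
    have := Real.log_neg hp0 hp1
    linarith
  set N : ℝ := ((finrank QB F : ℕ) : ℝ) with hN
  set ε : ℝ := (q - κ) / (2 * q) with hε
  have hε0 : 0 < ε := by
    rw [hε]
    exact div_pos (by linarith) (by linarith)
  set η : ℝ := (q - κ) / 2 with hη
  have hη0 : 0 < η := by
    rw [hη]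
    linarith
  set s : ℕ → Set Ω := fun D => {ω | ∃ b ∈ B D,
    b.1 * ∑ e : Fin (D + 1), ξ e ω * b.2 ^ (e : ℕ) ∈ Lt ⊔ F} with hs
  have hbound : ∀ D : ℕ, μ.real (s D) ≤
      C * Real.exp (q * (1 / ε + N)) * Real.exp (-η) ^ D := by
    intro D
    have h1 := prob_union F (B D) (hB D) D μ (fun e : Fin (D + 1) => ξ e) (fun e => hm e)
      (hi.precomp Fin.val_injective) (fun e ω => ha e ω) hp0 hp1.le (fun e x => hp e x)
    refine h1.trans ?_
    have h2 : p ^ ((D : ℝ) - 2 * √(D : ℝ) - N) ≤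
        Real.exp (-(q * ((D : ℝ) * (1 - ε) - 1 / ε - N))) := by
      rw [Real.rpow_def_of_pos hp0]
      refine Real.exp_le_exp.2 ?_
      have h3 : Real.log p = - q := by rw [hq]; ring
      rw [h3]
      have h4 : 2 * √(D : ℝ) ≤ ε * D + 1 / ε := by
        have h5 : √(D : ℝ) ^ 2 = D := Real.sq_sqrt (Nat.cast_nonneg D)
        have h6 : 0 ≤ (ε * √(D : ℝ) - 1) ^ 2 / ε := by positivity
        have h7 : (ε * √(D : ℝ) - 1) ^ 2 / ε = ε * √(D : ℝ) ^ 2 - 2 * √(D : ℝ) + 1 / ε := by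
          field_simp
          ring
        rw [h7, h5] at h6
        linarith
      nlinarith [mul_le_mul_of_nonneg_left h4 hq0.le]
    calc ((B D).card : ℝ) * p ^ ((D : ℝ) - 2 * √(D : ℝ) - N)
        ≤ (C * Real.exp (κ * D)) * Real.exp (-(q * ((D : ℝ) * (1 - ε) - 1 / ε - N))) :=
          mul_le_mul (hcard D) h2 (Real.rpow_nonneg hp0.le _)
            (mul_nonneg hC (Real.exp_pos _).le)
      _ = C * Real.exp (q * (1 / ε + N)) * Real.exp (-η) ^ D := by
          rw [← Real.exp_nat_mul, mul_assoc, mul_assoc, ← Real.exp_add, ← Real.exp_add]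
          congr 2
          have h8 : q * ε = η := by
            rw [hε, hη]
            field_simp
          have h9 : q - κ = 2 * η := by
            rw [hη]
            ring
          have h10 : κ = q - 2 * η := by linarith
          rw [h10]
          have h11 : q * ((D : ℝ) * (1 - ε) - 1 / ε - N) =
            q * D - (q * ε) * D - q * (1 / ε) - q * N := by ring
          rw [h11, h8]
          ring
  have hr1 : Real.exp (-η) < 1 := Real.exp_lt_one_iff.2 (by linarith)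
  have hsum : Summable fun D : ℕ => C * Real.exp (q * (1 / ε + N)) * Real.exp (-η) ^ D :=
    (summable_geometric_of_lt_one (Real.exp_pos _).le hr1).mul_left _
  have hne : ∑' D, μ (s D) ≠ ∞ := by
    refine ne_top_of_le_ne_top hsum.tsum_ofReal_ne_top (ENNReal.tsum_le_tsum fun D => ?_)
    rw [← ofReal_measureReal (measure_ne_top μ _)]
    exact ENNReal.ofReal_le_ofReal (hbound D)
  filter_upwards [ae_eventually_notMem hne] with ω hω
  filter_upwards [hω] with D hD b hb hmem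
  refine hD ⟨b, hb, ?_⟩
  rw [← Fin.sum_univ_eq_sum_range (fun j => ξ j ω * b.2 ^ j) (D + 1)] at hmem
  exact hmem

end Run7.h119.RX
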