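import Pool.Agent.Run7.h119.RX.Rand

/-!
# Random exponents, real form
-/

set_option autoImplicit false

namespace Run7.h119.RX

open Module Finset Pool.Agent.H301R2.SSE Pool.Agent.W254.HP MeasureTheory ProbabilityTheory Filter
open scoped ENNReal

theorem mem_of_alg (F : Submodule QB ℂ) {a : ℝ} (ha : 0 < a) {x : ℝ} {f : ℂ} (hf : f ∈ F)
    (h : IsAlgebraic ℚ (Complex.exp f * ((a ^ x : ℝ) : ℂ))) :
    ((Real.log a : ℝ) : ℂ) * (x : ℂ) ∈ Lt ⊔ F := by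
  have h1 : IsAlgebraic ℚ (Complex.exp (((Real.log a : ℝ) : ℂ) * (x : ℂ) + f)) := by
    have h2 : Complex.exp (((Real.log a : ℝ) : ℂ) * (x : ℂ) + f) =
        Complex.exp f * ((a ^ x : ℝ) : ℂ) := by
      rw [Complex.exp_add, ← Complex.ofReal_mul, ← Complex.ofReal_exp, Real.rpow_def_of_pos ha]
      ring
    rw [h2]
    exact h
  have h5 : ((Real.log a : ℝ) : ℂ) * (x : ℂ) + f ∈ Lt := Submodule.subset_span (Or.inr h1)
  have h6 := Submodule.sub_mem (Lt ⊔ F) (Submodule.mem_sup_left h5) (Submodule.mem_sup_right hf)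
  rwa [add_sub_cancel_right] at h6

theorem log_ne {a : ℝ} (ha : 0 < a) (ha1 : a ≠ 1) : ((Real.log a : ℝ) : ℂ) ≠ 0 := by
  rw [Complex.ofReal_ne_zero]
  intro h0
  rcases Real.log_eq_zero.1 h0 with h | h | h
  · exact ha.ne' h
  · exact ha1 h
  · linarith

theorem trans_ofReal {t : ℝ} (ht : Transcendental ℚ t) : Transcendental ℚ ((t : ℝ) : ℂ) := by
  intro h
  exact ht ((isAlgebraic_algebraMap_iff (R := ℚ) (algebraMap ℝ ℂ).injective).1 h)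

theorem atoms_ofReal {Ω : Type} [MeasurableSpace Ω] (μ : Measure Ω) [IsProbabilityMeasure μ]
    (η : Ω → ℝ) {p : ℝ} (hp : ∀ x : ℝ, μ.real {ω | η ω = x} ≤ p) (x : ℂ) :
    μ.real {ω | ((η ω : ℝ) : ℂ) = x} ≤ p := by
  refine le_trans (measureReal_mono ?_) (hp x.re)
  intro ω hω
  have h1 : ((η ω : ℝ) : ℂ) = x := hω
  change η ω = x.re
  rw [← h1, Complex.ofReal_re]

/-- finitely many bases and numbers -/
theorem prob_union_real (F : Submodule QB ℂ) [Module.Finite QB F] (B : Finset (ℝ × ℝ))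
    (hB : ∀ b ∈ B, 0 < b.1 ∧ b.1 ≠ 1 ∧ Transcendental ℚ b.2) (D : ℕ) {Ω : Type}
    [MeasurableSpace Ω] (μ : Measure Ω) [IsProbabilityMeasure μ] (ξ : Fin (D + 1) → Ω → ℝ)
    (hm : ∀ i, Measurable (ξ i)) (hi : iIndepFun ξ μ) (ha : ∀ i ω, IsAlgebraic ℚ (ξ i ω)) {p : ℝ}
    (hp0 : 0 < p) (hp1 : p ≤ 1) (hp : ∀ i x, μ.real {ω | ξ i ω = x} ≤ p) :
    μ.real {ω | ∃ b ∈ B, ∃ f ∈ F, IsAlgebraic ℚ (Complex.exp f *
      ((b.1 ^ (∑ e, ξ e ω * b.2 ^ (e : ℕ)) : ℝ) : ℂ))} ≤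
      B.card * p ^ ((D : ℝ) - 2 * √(D : ℝ) - finrank QB F) := by
  classical
  set g : ℝ × ℝ → ℂ × ℂ := fun b => (((Real.log b.1 : ℝ) : ℂ), ((b.2 : ℝ) : ℂ)) with hg
  have h1 := prob_union F (B.image g) (by
    intro b hb
    obtain ⟨b', hb', rfl⟩ := Finset.mem_image.1 hb
    obtain ⟨h2, h3, h4⟩ := hB b' hb'
    exact ⟨log_ne h2 h3, trans_ofReal h4⟩) D μ (fun i ω => ((ξ i ω : ℝ) : ℂ))
    (fun i => Complex.measurable_ofReal.comp (hm i))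
    (hi.comp (fun _ => ((↑) : ℝ → ℂ)) (fun _ => Complex.measurable_ofReal))
    (fun i ω => (ha i ω).algebraMap (A := ℂ)) hp0 hp1
    (fun i => atoms_ofReal μ (ξ i) (hp i))
  refine (measureReal_mono ?_).trans (h1.trans ?_)
  · rintro ω ⟨b, hb, f, hf, h2⟩
    refine ⟨g b, Finset.mem_image_of_mem g hb, ?_⟩
    have h3 := mem_of_alg F (hB b hb).1 hf h2
    convert h3 using 2
    push_cast
    rfl
  · refine mul_le_mul_of_nonneg_right ?_ (Real.rpow_nonneg hp0.le _)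
    exact_mod_cast Finset.card_image_le

/-- the several variables form -/
theorem prob_box_real (F : Submodule QB ℂ) [Module.Finite QB F] {n : ℕ} (t : Fin n → ℝ) {a : ℝ}
    (ha0 : 0 < a) (ha1 : a ≠ 1) {D : ℕ} (hD : 1 ≤ D) {Ω : Type} [MeasurableSpace Ω]
    (μ : Measure Ω) [IsProbabilityMeasure μ] (ξ : (Fin n → Fin D) → Ω → ℝ)
    (hm : ∀ i, Measurable (ξ i)) (hi : iIndepFun ξ μ) (ha : ∀ i ω, IsAlgebraic ℚ (ξ i ω)) {p : ℝ}
    (hp0 : 0 < p) (hp1 : p ≤ 1) (hp : ∀ i x, μ.real {ω | ξ i ω = x} ≤ p) :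
    μ.real {ω | ∃ f ∈ F, IsAlgebraic ℚ (Complex.exp f *
      ((a ^ (∑ e, ξ e ω * ∏ i, t i ^ (e i : ℕ)) : ℝ) : ℂ))} ≤
      p ^ ((finrank QB (boxV (fun i => ((t i : ℝ) : ℂ)) D) : ℝ) -
        (4 ^ n + 1) * √(finrank QB (boxV (fun i => ((t i : ℝ) : ℂ)) D) : ℝ) - finrank QB F) := by
  classical
  have h1 := prob_box F (fun i => ((t i : ℝ) : ℂ)) (log_ne ha0 ha1) hD μ
    (fun i ω => ((ξ i ω : ℝ) : ℂ))
    (fun i => Complex.measurable_ofReal.comp (hm i))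
    (hi.comp (fun _ => ((↑) : ℝ → ℂ)) (fun _ => Complex.measurable_ofReal))
    (fun i ω => (ha i ω).algebraMap (A := ℂ)) hp0 hp1
    (fun i => atoms_ofReal μ (ξ i) (hp i))
  refine (measureReal_mono ?_).trans h1
  rintro ω ⟨f, hf, h2⟩
  have h3 := mem_of_alg F ha0 hf h2
  change _ ∈ Lt ⊔ F
  convert h3 using 2
  push_cast
  rfl

/-- almost surely -/
theorem ae_real (F : Submodule QB ℂ) [Module.Finite QB F] (B : ℕ → Finset (ℝ × ℝ))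
    (hB : ∀ D, ∀ b ∈ B D, 0 < b.1 ∧ b.1 ≠ 1 ∧ Transcendental ℚ b.2) {Ω : Type}
    [MeasurableSpace Ω] (μ : Measure Ω) [IsProbabilityMeasure μ] (ξ : ℕ → Ω → ℝ)
    (hm : ∀ i, Measurable (ξ i)) (hi : iIndepFun ξ μ) (ha : ∀ i ω, IsAlgebraic ℚ (ξ i ω)) {p : ℝ}
    (hp0 : 0 < p) (hp1 : p < 1) (hp : ∀ i x, μ.real {ω | ξ i ω = x} ≤ p) (C κ : ℝ) (hC : 0 ≤ C)
    (hκ : κ < - Real.log p) (hcard : ∀ D : ℕ, ((B D).card : ℝ) ≤ C * Real.exp (κ * D)) :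
    ∀ᵐ ω ∂μ, ∀ᶠ D : ℕ in atTop, ∀ b ∈ B D, ∀ f ∈ F, Transcendental ℚ (Complex.exp f *
      ((b.1 ^ (∑ j ∈ range (D + 1), ξ j ω * b.2 ^ j) : ℝ) : ℂ)) := by
  classical
  set g : ℝ × ℝ → ℂ × ℂ := fun b => (((Real.log b.1 : ℝ) : ℂ), ((b.2 : ℝ) : ℂ)) with hg
  have h1 := ae_union F (fun D => (B D).image g) (by
    intro D b hb
    obtain ⟨b', hb', rfl⟩ := Finset.mem_image.1 hb
    obtain ⟨h2, h3, h4⟩ := hB D b' hb'
    exact ⟨log_ne h2 h3, trans_ofReal h4⟩) μ (fun i ω => ((ξ i ω : ℝ) : ℂ))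
    (fun i => Complex.measurable_ofReal.comp (hm i))
    (hi.comp (fun _ => ((↑) : ℝ → ℂ)) (fun _ => Complex.measurable_ofReal))
    (fun i ω => (ha i ω).algebraMap (A := ℂ)) hp0 hp1
    (fun i => atoms_ofReal μ (ξ i) (hp i)) C κ hC hκ (fun D =>
      le_trans (by exact_mod_cast Finset.card_image_le) (hcard D))
  filter_upwards [h1] with ω hω
  filter_upwards [hω] with D hD b hb f hf halg
  refine hD (g b) (Finset.mem_image_of_mem g hb) ?_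
  have h3 := mem_of_alg F (hB D b hb).1 hf halg
  convert h3 using 2
  push_cast
  rfl

end Run7.h119.RX
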